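import Pool.Agent.H3.UG.RankOf
import Pool.Agent.H47.UG.LeadK

/-!
# A-RANK
-/

set_option autoImplicit false

open MvPolynomial

namespace Pool.Agent.H47.UG

open Pool.Agent.H47.KB (wt)
open Pool.Agent.H37.KA (Packed finite_weight)

open LeadK in
private lemma Rank_minor {K : Type} [Field K] {n k : ℕ} (c : Fin n → Fin k) :
    (LeadK.minor (K := K) c) ∈ restrictSupport K
      {a : Fin k × Fin n →₀ ℕ | Finsupp.weight (LeadK.wt n k) a = ∑ t, ((c t : ℕ) + 1) ∧ a.degree = n} := by
  rw [minor_eq]
  refine Submodule.sum_mem _ fun σ _ => ?_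
  have h : MvPolynomial.monomial (ex fun i => c (σ i)) (1 : K) ∈ restrictSupport K
      {a : Fin k × Fin n →₀ ℕ | Finsupp.weight (LeadK.wt n k) a = ∑ t, ((c t : ℕ) + 1) ∧ a.degree = n} := by
    rw [monomial_mem_restrictSupport]
    left
    refine ⟨?_, degree_ex _⟩
    rw [weight_ex]
    exact Equiv.sum_comp σ fun i => ((c i : ℕ) + 1)
  rcases Int.units_eq_one_or (Equiv.Perm.sign σ) with h1 | h1 <;> rw [h1]
  · simpa using h
  · rw [Units.neg_smul, one_smul]
    exact Submodule.neg_mem _ h

private lemma Rank_mul {K σ : Type} [Field K] (w : σ → ℕ) {f g : MvPolynomial σ K} {a b c d : ℕ}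
    (hf : f ∈ restrictSupport K {x | Finsupp.weight w x = a ∧ x.degree = b})
    (hg : g ∈ restrictSupport K {x | Finsupp.weight w x = c ∧ x.degree = d}) :
    f * g ∈ restrictSupport K {x | Finsupp.weight w x = a + c ∧ x.degree = b + d} := by
  have h := Submodule.mul_mem_mul hf hg
  rw [← restrictSupport_add] at h
  refine restrictSupport_mono _ ?_ h
  rintro _ ⟨x, hx, y, hy, rfl⟩
  exact ⟨by rw [map_add, hx.1, hy.1], by rw [map_add, hx.2, hy.2]⟩

private lemma Rank_prod {K σ ι : Type} [Field K] (w : σ → ℕ) (s : Finset ι) (f : ι → MvPolynomial σ K)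
    (a b : ι → ℕ) (hf : ∀ i ∈ s, f i ∈ restrictSupport K {x | Finsupp.weight w x = a i ∧ x.degree = b i}) :
    ∏ i ∈ s, f i ∈ restrictSupport K {x | Finsupp.weight w x = ∑ i ∈ s, a i ∧ x.degree = ∑ i ∈ s, b i} := by
  classical
  induction s using Finset.induction_on with
  | empty =>
    rw [Finset.prod_empty]
    have : (1 : MvPolynomial σ K) = monomial 0 1 := rfl
    rw [this, monomial_mem_restrictSupport]
    left
    simp
  | insert i s hi ih =>
    rw [Finset.prod_insert hi, Finset.sum_insert hi, Finset.sum_insert hi]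
    exact Rank_mul w (hf i (Finset.mem_insert_self _ _)) (ih fun j hj => hf j (Finset.mem_insert_of_mem hj))

open LeadK in
private theorem Rank_ipd {K : Type} [Field K] (n k m p q : ℕ) :
    Module.finrank K (IP K n k p m q) ≤ monNum n k m q := by
  classical
  set B : Set (Fin k × Fin n →₀ ℕ) := {a | Finsupp.weight (LeadK.wt n k) a = m ∧ a.degree = q} with hB
  have hfin : B.Finite := (finite_weight n k m).subset fun a ha => ha.1
  have hle : IP K n k p m q ≤ (restrictSupport K B).map (rename (emb n k)).toLinearMap := by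
    unfold IP
    rw [Submodule.span_le]
    rintro v ⟨c, q', s, l, h1, h2, rfl⟩
    refine ⟨(∏ r, LeadK.minor (c r)) * ∏ r, X (s r, l r), ?_, ?_⟩
    · have e1 := Rank_prod (K := K) (LeadK.wt n k) Finset.univ (fun r => LeadK.minor (c r))
        (fun r => ∑ t, ((c r t : ℕ) + 1)) (fun _ => n) fun r _ => Rank_minor (c r)
      have e2 := Rank_prod (K := K) (LeadK.wt n k) Finset.univ (fun r => X (s r, l r))
        (fun r => ((s r : ℕ) + 1)) (fun _ => 1) fun r _ => by
          show monomial _ _ ∈ _
          rw [monomial_mem_restrictSupport]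
          left
          refine ⟨?_, ?_⟩
          · rw [Finsupp.weight_single]
            simp [LeadK.wt]
          · simp
      have e3 := Rank_mul _ e1 e2
      refine restrictSupport_mono _ ?_ e3
      rintro x ⟨hx1, hx2⟩
      refine ⟨?_, ?_⟩
      · rw [hx1, ← h2, add_comm]
      · rw [hx2, ← h1]
        simp
        ring
    · show rename (emb n k) _ = _
      rw [map_mul, map_prod, map_prod]
      congr 1
      · exact Finset.prod_congr rfl fun r _ => rename_minor _
      · refine Finset.prod_congr rfl fun r _ => ?_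
        rw [rename_X]
        rfl
  have := hfin.to_subtype
  have := Fintype.ofFinite B
  have hb : Module.Finite K (restrictSupport K B) := Module.Finite.of_basis (basisRestrictSupport K B)
  calc Module.finrank K (IP K n k p m q)
      ≤ Module.finrank K ((restrictSupport K B).map (rename (emb n k)).toLinearMap) :=
        Submodule.finrank_mono hle
    _ ≤ Module.finrank K (restrictSupport K B) := Submodule.finrank_map_le _ _
    _ = Fintype.card B := Module.finrank_eq_card_basis (basisRestrictSupport K B)
    _ = monNum n k m q := by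
        rw [← Nat.card_eq_fintype_card]
        rfl

/-- A-RANK -/
theorem rank_glue (K : Type) [Field K] (n k m l : ℕ) :
    Nat.card {a : Fin k × Fin n →₀ ℕ // Finsupp.weight (wt n k) a = m ∧ Packed l a} ≤
      ∑ q ∈ Finset.range (m + 1), Module.finrank K (IP K n k l m q) ∧
    (∑ q ∈ Finset.range (m + 1), Module.finrank K (IP K n k l m q)) +
      (∑ q ∈ Finset.range (m + 1), (monNum n k m q - Module.finrank K (IP K n k l m q))) =
      Nat.card {a : Fin k × Fin n →₀ ℕ // Finsupp.weight (wt n k) a = m} :=
  rank_glue_of K n k m l (fun q => leadK n k m l q) fun q => Rank_ipd n k m l q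

end Pool.Agent.H47.UG
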