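import Pool.Agent.H47.UG.Alg
import Pool.Agent.H37.KA.Lead

/-!
# Number of the packed exponents against the ranks of the powers of the ideal of the minors
-/

set_option autoImplicit false

open MvPolynomial

namespace Pool.Agent.H47.UG

open Pool.Agent.H47.KB (wt)
open Pool.Agent.H37.KA (Packed finite_weight)

/-- The weight is at least the degree. -/
private lemma RankOf_degree_le {n k m : ℕ} {a : Fin k × Fin n →₀ ℕ} (h : Finsupp.weight (wt n k) a = m) :
    a.degree ≤ m := by
  rw [Finsupp.weight_apply, Finsupp.sum_fintype _ _ (by simp)] at h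
  rw [Finsupp.degree_eq_sum, ← h]
  refine Finset.sum_le_sum fun x _ => ?_
  have h3 : 1 ≤ wt n k x := by unfold wt; omega
  rw [smul_eq_mul]
  exact Nat.le_mul_of_pos_right _ h3

/-- Splitting of a set of exponents of weight `m` by the degree. -/
private lemma RankOf_split (n k m : ℕ) (P : (Fin k × Fin n →₀ ℕ) → Prop) :
    Nat.card {a : Fin k × Fin n →₀ ℕ // Finsupp.weight (wt n k) a = m ∧ P a} =
      ∑ q ∈ Finset.range (m + 1),
        Nat.card {a : Fin k × Fin n →₀ ℕ // Finsupp.weight (wt n k) a = m ∧ a.degree = q ∧ P a} := by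
  classical
  have hf : {a : Fin k × Fin n →₀ ℕ | Finsupp.weight (wt n k) a = m ∧ P a}.Finite :=
    (finite_weight n k m).subset fun a ha => ha.1
  have hfq : ∀ q, {a : Fin k × Fin n →₀ ℕ | Finsupp.weight (wt n k) a = m ∧ a.degree = q ∧ P a}.Finite :=
    fun q => (finite_weight n k m).subset fun a ha => ha.1
  have e1 : Nat.card {a : Fin k × Fin n →₀ ℕ // Finsupp.weight (wt n k) a = m ∧ P a} = hf.toFinset.card :=
    Nat.card_eq_card_finite_toFinset hf
  have e2 : ∀ q, Nat.card {a : Fin k × Fin n →₀ ℕ // Finsupp.weight (wt n k) a = m ∧ a.degree = q ∧ P a} =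
      (hfq q).toFinset.card := fun q => Nat.card_eq_card_finite_toFinset (hfq q)
  rw [e1, Finset.sum_congr rfl fun q _ => e2 q,
    Finset.card_eq_sum_card_fiberwise (f := fun a : Fin k × Fin n →₀ ℕ => a.degree)
      (t := Finset.range (m + 1))]
  · refine Finset.sum_congr rfl fun q _ => ?_
    congr 1
    ext a
    simp only [Finset.mem_filter, Set.Finite.mem_toFinset, Set.mem_ofPred_eq]
    tauto
  · intro a ha
    have ha' : Finsupp.weight (wt n k) a = m ∧ P a := by simpa using ha
    have := RankOf_degree_le ha'.1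
    simp only [Finset.coe_range, Set.mem_Iio]
    omega

theorem rank_glue_of (K : Type) [Field K] (n k m l : ℕ)
    (hlead : ∀ q, Nat.card {a : Fin k × Fin n →₀ ℕ //
      Finsupp.weight (fun p : Fin k × Fin n => (p.1 : ℕ) + 1) a = m ∧
      a.degree = q ∧ ∃ f : Fin l → Fin n → Fin k, (∀ l, StrictMono (f l)) ∧
        ∀ x : Fin k × Fin n, Nat.card {l // f l x.2 = x.1} ≤ a x} ≤ Module.finrank K (IP K n k l m q))
    (hipd : ∀ q, Module.finrank K (IP K n k l m q) ≤ monNum n k m q) :
    Nat.card {a : Fin k × Fin n →₀ ℕ // Finsupp.weight (wt n k) a = m ∧ Packed l a} ≤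
      ∑ q ∈ Finset.range (m + 1), Module.finrank K (IP K n k l m q) ∧
    (∑ q ∈ Finset.range (m + 1), Module.finrank K (IP K n k l m q)) +
      (∑ q ∈ Finset.range (m + 1), (monNum n k m q - Module.finrank K (IP K n k l m q))) =
      Nat.card {a : Fin k × Fin n →₀ ℕ // Finsupp.weight (wt n k) a = m} := by
  constructor
  · rw [RankOf_split]
    exact Finset.sum_le_sum fun q _ => hlead q
  · rw [← Finset.sum_add_distrib]
    have h1 : ∀ q ∈ Finset.range (m + 1), Module.finrank K (IP K n k l m q) +
        (monNum n k m q - Module.finrank K (IP K n k l m q)) =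
        Nat.card {a : Fin k × Fin n →₀ ℕ // Finsupp.weight (wt n k) a = m ∧ a.degree = q ∧ True} := by
      intro q _
      rw [Nat.add_sub_cancel' (hipd q)]
      unfold monNum
      simp only [and_true]
      rfl
    rw [Finset.sum_congr rfl h1, ← RankOf_split]
    simp only [and_true]

end Pool.Agent.H47.UG
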